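import Pool.Agent.Helper66.SB.GoalsB

/-!
# Project SB (MP_d3128a_ag): packet SB-TR (transport along a bijection of the index types)
-/

set_option autoImplicit false

open Module MvPolynomial

noncomputable section

namespace Pool.Agent.Helper46.SB

open Pool.Agent.Helper66.SB Helper18.Shgh

theorem gTR : G_TR := by
  intro ι κ _ _ f a d h
  obtain ⟨G, hG, hP⟩ := h
  have hinj : Function.Injective (Prod.map f (id : Fin 3 → Fin 3)) :=
    Function.Injective.prodMap f.injective Function.injective_id
  refine ⟨rename (Prod.map f (id : Fin 3 → Fin 3)) G, ?_, ?_⟩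
  · intro h0
    apply hG
    apply rename_injective _ hinj
    rw [h0, map_zero]
  · intro P hP0 hev
    have h1 := hP (fun i => P (f i)) (fun i => hP0 (f i)) (by
      rw [eval_rename] at hev
      exact hev)
    have h2 : (⨅ i : ι, Submodule.restrictScalars ℂ
          ((Ideal.span {g : MvPolynomial (Fin 3) ℂ | g.IsHomogeneous 1 ∧ eval (P (f i)) g = 0})
            ^ (a (f i)) : Ideal (MvPolynomial (Fin 3) ℂ)))
        = ⨅ j : κ, Submodule.restrictScalars ℂ
          ((Ideal.span {g : MvPolynomial (Fin 3) ℂ | g.IsHomogeneous 1 ∧ eval (P j) g = 0})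
            ^ (a j) : Ideal (MvPolynomial (Fin 3) ℂ)) :=
      Equiv.iInf_comp f (g := fun j : κ => Submodule.restrictScalars ℂ
          ((Ideal.span {g : MvPolynomial (Fin 3) ℂ | g.IsHomogeneous 1 ∧ eval (P j) g = 0})
            ^ (a j) : Ideal (MvPolynomial (Fin 3) ℂ)))
    have h3 : ∑ i : ι, (Nat.choose (a (f i) + 1) 2 : ℤ) = ∑ j : κ, (Nat.choose (a j + 1) 2 : ℤ) :=
      Equiv.sum_comp f (fun j : κ => (Nat.choose (a j + 1) 2 : ℤ))
    rw [← h2, ← h3]
    exact h1

end Pool.Agent.Helper46.SB
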